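import Pool.Agent.helper68.B2.Defs
import Pool.Agent.helper46.B2.LI

/-! # MP_b2b189_gt (S13780), b2:W2: continuous square roots of rank one matrices -/

set_option autoImplicit false

namespace Pool.Agent.helper68.B2

open scoped ContDiff Topology Matrix
open Matrix Set Filter

section W2

theorem W2_pos {n : ℕ} {w : Fin n → ℝ} (hw : w ≠ 0) : 0 < w ⬝ᵥ w := by
  have h2 : w ⬝ᵥ w ≠ 0 := by
    rw [Ne, dotProduct_self_eq_zero]
    exact hw
  have h3 : 0 ≤ w ⬝ᵥ w := by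
    simp only [dotProduct]
    exact Finset.sum_nonneg fun i _ => mul_self_nonneg _
  exact lt_of_le_of_ne h3 (Ne.symm h2)

theorem W2_ss {s : ℝ} (hs : s = 1 ∨ s = -1) : s * s = 1 := by
  rcases hs with h | h <;> rw [h] <;> norm_num

theorem W2_trace {n : ℕ} (w : Fin n → ℝ) (s : ℝ) : ∑ i, (s • vecMulVec w w) i i = s * (w ⬝ᵥ w) := by
  simp only [Matrix.smul_apply, vecMulVec_apply, smul_eq_mul, dotProduct, Finset.mul_sum]

end W2

theorem W2_root {n : ℕ} (A : E4 → Matrix (Fin n) (Fin n) ℝ) (hA : ContinuousOn A {0}ᶜ)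
    (hH : Hom A)
    (h1 : ∀ x, x ≠ 0 → ∃ w : Fin n → ℝ, w ≠ 0 ∧ ∃ s : ℝ, (s = 1 ∨ s = -1) ∧
      A x = s • vecMulVec w w) :
    ∃ s : ℝ, (s = 1 ∨ s = -1) ∧ ∃ w : E4 → Fin n → ℝ, ContinuousOn w {0}ᶜ ∧ Hom w ∧
      ∀ x, x ≠ 0 → w x ≠ 0 ∧ A x = s • vecMulVec (w x) (w x) := by
  have hAij : ∀ i j, ContinuousOn (fun x => A x i j) ({0}ᶜ : Set E4) := fun i j =>
    (continuous_apply_apply i j).comp_continuousOn hA
  have htr : ContinuousOn (fun x => ∑ i, A x i i) ({0}ᶜ : Set E4) :=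
    continuousOn_finsetSum _ fun i _ => hAij i i
  have hconn : IsPreconnected ({0}ᶜ : Set E4) := by
    refine (isConnected_compl_singleton_of_one_lt_rank ?_ 0).isPreconnected
    rw [← Module.finrank_eq_rank]
    simp
  have hne : ∀ x : E4, x ≠ 0 → ∑ i, A x i i ≠ 0 := by
    intro x hx
    obtain ⟨w, hw, s, hs, e⟩ := h1 x hx
    rw [e, W2_trace]
    have := W2_pos hw
    rcases hs with h | h <;> rw [h] <;> simp [this.ne']
  have hglob : ∃ s : ℝ, (s = 1 ∨ s = -1) ∧ ∀ x : E4, x ≠ 0 → 0 < s * ∑ i, A x i i := by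
    by_cases hpos : ∃ x : E4, x ≠ 0 ∧ 0 < ∑ i, A x i i
    · refine ⟨1, Or.inl rfl, fun x hx => ?_⟩
      rw [one_mul]
      by_contra hle
      obtain ⟨y, hy, hy0⟩ := hpos
      obtain ⟨z, hz, hz0⟩ := hconn.intermediate_value (show x ∈ ({0}ᶜ : Set E4) from hx)
        (show y ∈ ({0}ᶜ : Set E4) from hy) htr ⟨not_lt.1 hle, hy0.le⟩
      exact hne z hz hz0
    · push Not at hpos
      refine ⟨-1, Or.inr rfl, fun x hx => ?_⟩
      have h2 := hpos x hx
      have h3 := hne x hx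
      have := lt_of_le_of_ne h2 h3
      linarith
  obtain ⟨s, hs, hspos⟩ := hglob
  have hss := W2_ss hs
  have hrank : ∀ x : E4, x ≠ 0 → ∃ w : Fin n → ℝ, w ≠ 0 ∧ s • A x = vecMulVec w w := by
    intro x hx
    obtain ⟨w, hw, s', hs', e⟩ := h1 x hx
    refine ⟨w, hw, ?_⟩
    have h2 := hspos x hx
    rw [e, W2_trace] at h2
    have h3 := W2_pos hw
    have h4 : s = s' := by
      rcases hs with h | h <;> rcases hs' with h' | h' <;> rw [h, h'] at h2 ⊢ <;> exfalso <;> nlinarith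
    rw [e, smul_smul, ← h4, hss, one_smul]
  obtain ⟨w, hwc, hw⟩ := helper25.B2.exists_lift_punctured (E := E4) (by simp) (S := fun x => s • A x)
    (by exact hA.const_smul s) hrank
  have hwA : ∀ x : E4, x ≠ 0 → A x = s • vecMulVec (w x) (w x) := by
    intro x hx
    rw [← (hw x hx).2, smul_smul, hss, one_smul]
  refine ⟨s, hs, w, hwc, ?_, fun x hx => ⟨(hw x hx).1, hwA x hx⟩⟩
  intro t ht x
  by_cases hx : x = 0
  · rw [hx, smul_zero]
  have htx : ∀ r : ℝ, 0 < r → r • x ≠ 0 := fun r hr => smul_ne_zero hr.ne' hx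
  have hpm : ∀ r : ℝ, 0 < r → w (r • x) = w x ∨ w (r • x) = - w x := by
    intro r hr
    refine helper25.B2.LI_sign (hw x hx).1 ?_
    rw [← (hw x hx).2, ← (hw _ (htx r hr)).2, hH r hr x]
  have hq : ContinuousOn (fun r : ℝ => w (r • x) ⬝ᵥ w x) (Ioi 0) := by
    simp only [dotProduct]
    refine continuousOn_finsetSum _ fun i _ => ContinuousOn.mul ?_ continuousOn_const
    have h2 : ContinuousOn (fun r : ℝ => w (r • x)) (Ioi 0) :=
      hwc.comp (by fun_prop) (fun r hr => htx r hr)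
    exact continuousOn_pi.1 h2 i
  have hq0 : ∀ r : ℝ, 0 < r → w (r • x) ⬝ᵥ w x ≠ 0 := by
    intro r hr
    have h3 := W2_pos (hw x hx).1
    rcases hpm r hr with h | h
    · rw [h]; exact h3.ne'
    · rw [h, neg_dotProduct]; exact neg_ne_zero.2 h3.ne'
  rcases hpm t ht with h | h
  · exact h
  · exfalso
    have h3 := W2_pos (hw x hx).1
    have h4 : w (t • x) ⬝ᵥ w x ≤ 0 := by
      rw [h, neg_dotProduct]; linarith
    have h5 : 0 ≤ w ((1 : ℝ) • x) ⬝ᵥ w x := by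
      rw [one_smul]; exact h3.le
    obtain ⟨r, hr, hr0⟩ := isPreconnected_Ioi.intermediate_value (show t ∈ Ioi (0 : ℝ) from ht)
      (show (1 : ℝ) ∈ Ioi (0 : ℝ) from mem_Ioi.2 zero_lt_one) hq ⟨h4, h5⟩
    exact hq0 r hr hr0

/-- a continuous root of a smooth matrix is smooth -/
theorem W2_smooth {n : ℕ} (A : E4 → Matrix (Fin n) (Fin n) ℝ) (w : E4 → Fin n → ℝ) (s : ℝ)
    (hs : s = 1 ∨ s = -1) (U : Set E4) (hU : IsOpen U)
    (hA : ∀ i j, ContDiffOn ℝ ∞ (fun x => A x i j) U) (hw : ContinuousOn w U)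
    (h1 : ∀ x ∈ U, w x ≠ 0 ∧ A x = s • vecMulVec (w x) (w x)) : ContDiffOn ℝ ∞ w U := by
  intro x hx
  have hss := W2_ss hs
  refine ContDiffAt.contDiffWithinAt ?_
  refine helper25.B2.contDiffAt_lift (S := fun y => s • A y) (hw.continuousAt (hU.mem_nhds hx)) (h1 x hx).1
    (fun i j => ?_) ?_
  · have h2 := ((hA i j).contDiffAt (hU.mem_nhds hx)).const_smul s
    exact h2
  · filter_upwards [hU.mem_nhds hx] with y hy
    rw [(h1 y hy).2, smul_smul, hss, one_smul]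

/-- local smooth roots -/
theorem W2_local {n : ℕ} (A : E4 → Matrix (Fin n) (Fin n) ℝ) (s : ℝ)
    (hs : s = 1 ∨ s = -1) (U : Set E4) (hU : IsOpen U)
    (hA : ∀ i j, ContDiffOn ℝ ∞ (fun x => A x i j) U)
    (h1 : ∀ x ∈ U, ∃ w : Fin n → ℝ, w ≠ 0 ∧ A x = s • vecMulVec w w)
    (p : E4) (hp : p ∈ U) (w₀ : Fin n → ℝ) (hw₀ : A p = s • vecMulVec w₀ w₀) :
    ∃ W, IsOpen W ∧ p ∈ W ∧ W ⊆ U ∧ ∃ w : E4 → Fin n → ℝ, ContDiffOn ℝ ∞ w W ∧ w p = w₀ ∧
      ∀ x ∈ W, w x ≠ 0 ∧ A x = s • vecMulVec (w x) (w x) := by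
  have hss := W2_ss hs
  have hw₀0 : w₀ ≠ 0 := by
    rintro rfl
    obtain ⟨w, hw, e⟩ := h1 p hp
    have h2 := W2_trace w s
    rw [← e, hw₀] at h2
    have h3 := W2_pos hw
    simp at h2
    rcases hs with h | h
    · rw [h] at h2; norm_num at h2; exact hw h2
    · rw [h] at h2; norm_num at h2; exact hw h2
  have h00 := W2_pos hw₀0
  set q : E4 → ℝ := fun x => s * ∑ i, ∑ j, w₀ i * A x i j * w₀ j with hq
  have hqs : ContDiffOn ℝ ∞ q U := by
    refine contDiffOn_const.mul (ContDiffOn.sum fun i _ => ContDiffOn.sum fun j _ => ?_)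
    exact (contDiffOn_const.mul (hA i j)).mul contDiffOn_const
  have hqv : ∀ x, ∀ w : Fin n → ℝ, A x = s • vecMulVec w w → q x = (w ⬝ᵥ w₀) * (w ⬝ᵥ w₀) := by
    intro x w e
    have h2 : ∀ i j, A x i j = s * (w i * w j) := fun i j => by
      rw [e, Matrix.smul_apply, vecMulVec_apply, smul_eq_mul]
    have h3 : (w ⬝ᵥ w₀) * (w ⬝ᵥ w₀) = ∑ i, ∑ j, (w i * w₀ i) * (w j * w₀ j) := by
      simp only [dotProduct]
      rw [Finset.sum_mul_sum]
    rw [h3]
    simp only [hq, Finset.mul_sum]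
    refine Finset.sum_congr rfl fun i _ => Finset.sum_congr rfl fun j _ => ?_
    rw [h2 i j]
    calc s * (w₀ i * (s * (w i * w j)) * w₀ j) = (s * s) * ((w i * w₀ i) * (w j * w₀ j)) := by ring
      _ = _ := by rw [hss, one_mul]
  have hmv : ∀ x, ∀ w : Fin n → ℝ, A x = s • vecMulVec w w → ∀ i,
      s * ∑ j, A x i j * w₀ j = w i * (w ⬝ᵥ w₀) := by
    intro x w e i
    simp only [dotProduct, Finset.mul_sum]
    refine Finset.sum_congr rfl fun j _ => ?_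
    have h2 : A x i j = s * (w i * w j) := by
      rw [e, Matrix.smul_apply, vecMulVec_apply, smul_eq_mul]
    rw [h2]
    calc s * (s * (w i * w j) * w₀ j) = (s * s) * (w i * (w j * w₀ j)) := by ring
      _ = _ := by rw [hss, one_mul]
  have hqp : 0 < q p := by
    rw [hqv p w₀ hw₀]; positivity
  have hWo : IsOpen (U ∩ q ⁻¹' Ioi 0) := hqs.continuousOn.isOpen_inter_preimage hU isOpen_Ioi
  set v : E4 → Fin n → ℝ := fun x i => s * (∑ j, A x i j * w₀ j) / √(q x) with hv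
  refine ⟨U ∩ q ⁻¹' Ioi 0, hWo, ⟨hp, hqp⟩, inter_subset_left, v, ?_, ?_, ?_⟩
  · rw [contDiffOn_pi]
    intro i x hx
    have hx' : U ∩ q ⁻¹' Ioi 0 ∈ 𝓝 x := hWo.mem_nhds hx
    refine ContDiffAt.contDiffWithinAt ?_
    have h2 : ContDiffAt ℝ ∞ q x := hqs.contDiffAt (hU.mem_nhds hx.1)
    have h3 : q x ≠ 0 := (show 0 < q x from hx.2).ne'
    have h4 : ContDiffAt ℝ ∞ (fun x => s * ∑ j, A x i j * w₀ j) x := by
      refine contDiffAt_const.mul (ContDiffAt.sum fun j _ => ?_)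
      exact ((hA i j).contDiffAt (hU.mem_nhds hx.1)).mul contDiffAt_const
    exact h4.div (h2.sqrt h3) (Real.sqrt_ne_zero'.2 hx.2)
  · funext i
    simp only [hv]
    rw [hmv p w₀ hw₀ i, hqv p w₀ hw₀, Real.sqrt_mul_self h00.le]
    field_simp
  · intro x hx
    obtain ⟨w, hw, e⟩ := h1 x hx.1
    have hqx : q x = (w ⬝ᵥ w₀) * (w ⬝ᵥ w₀) := hqv x w e
    have hd : w ⬝ᵥ w₀ ≠ 0 := by
      intro h
      have : 0 < q x := hx.2
      rw [hqx, h] at this
      simp at this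
    have hvx : v x = ((w ⬝ᵥ w₀) / |w ⬝ᵥ w₀|) • w := by
      funext i
      simp only [hv, Pi.smul_apply, smul_eq_mul]
      rw [hmv x w e i, hqx, Real.sqrt_mul_self_eq_abs]
      ring
    have hc : ((w ⬝ᵥ w₀) / |w ⬝ᵥ w₀|) * ((w ⬝ᵥ w₀) / |w ⬝ᵥ w₀|) = 1 := by
      have habs : |w ⬝ᵥ w₀| ≠ 0 := abs_ne_zero.2 hd
      rw [div_mul_div_comm, abs_mul_abs_self]
      exact div_self (mul_ne_zero hd hd)
    refine ⟨?_, ?_⟩
    · rw [hvx]
      refine smul_ne_zero ?_ hw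
      intro h
      rw [h] at hc
      simp at hc
    · rw [e, hvx]
      congr 1
      ext i j
      simp only [vecMulVec_apply, Pi.smul_apply, smul_eq_mul]
      calc w i * w j = 1 * (w i * w j) := by ring
        _ = (((w ⬝ᵥ w₀) / |w ⬝ᵥ w₀|) * ((w ⬝ᵥ w₀) / |w ⬝ᵥ w₀|)) * (w i * w j) := by rw [hc]
        _ = _ := by ring

end Pool.Agent.helper68.B2
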