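import Mathlib
import Pool.Agent.helper25.B2.Sol

/-! # MP_b2b189_gt (S13780), b2:FQ: uniqueness of integral curves -/

set_option autoImplicit false

namespace Pool.Agent.helper25.B2

open Set Filter Topology

variable {E : Type*} [NormedAddCommGroup E] [NormedSpace ℝ E]

/-- Time reversal. -/
theorem FQ_reverse {X : E → E} {Ω : Set E} {γ : ℝ → E} {I : Set ℝ} (h : Sol X Ω γ I) :
    Sol (fun x => -X x) Ω (fun t => γ (-t)) {t | -t ∈ I} := by
  intro t ht
  refine ⟨(h _ ht).1, ?_⟩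
  have h1 := (h _ ht).2.scomp t (hasDerivAt_neg t)
  rw [neg_smul, one_smul] at h1
  exact h1

theorem FQ_forward {X : E → E} {Ω : Set E}
    (hX : ∀ x ∈ Ω, ContDiffAt ℝ 1 X x) {γ₁ γ₂ : ℝ → E} {a b : ℝ}
    (h₁ : Sol X Ω γ₁ (Icc a b)) (h₂ : Sol X Ω γ₂ (Icc a b)) (h : γ₁ a = γ₂ a) :
    EqOn γ₁ γ₂ (Icc a b) := by
  have hcl : IsClosed ({t | γ₁ t = γ₂ t} ∩ Icc a b) := by
    have hc : ContinuousOn (fun t => γ₁ t - γ₂ t) (Icc a b) := h₁.continuousOn.sub h₂.continuousOn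
    have := hc.preimage_isClosed_of_isClosed isClosed_Icc (isClosed_singleton (x := (0 : E)))
    convert this using 1
    ext t
    simp only [mem_inter_iff, mem_ofPred_eq, mem_preimage, mem_singleton_iff, sub_eq_zero]
    tauto
  have key := hcl.Icc_subset_of_forall_mem_nhdsWithin h (by
    rintro x ⟨hx, hxI⟩
    have hxI' : x ∈ Icc a b := Ico_subset_Icc_self hxI
    obtain ⟨K, U, hU, hK⟩ := (hX _ (h₁ x hxI').1).exists_lipschitzOnWith
    have hU' : U ∈ 𝓝 (γ₂ x) := by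
      have hx' : γ₁ x = γ₂ x := hx
      rwa [← hx']
    have e1 : ∀ᶠ t in 𝓝 x, γ₁ t ∈ U := (h₁ x hxI').2.continuousAt.eventually_mem hU
    have e2 : ∀ᶠ t in 𝓝 x, γ₂ t ∈ U := (h₂ x hxI').2.continuousAt.eventually_mem hU'
    obtain ⟨ε, hε, he⟩ := Metric.eventually_nhds_iff.1 (e1.and e2)
    set c := min (x + ε / 2) b with hc
    have hxc : x < c := lt_min (by linarith) hxI.2
    have hcb : c ≤ b := min_le_right _ _
    have hcε : c ≤ x + ε / 2 := min_le_left _ _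
    have hsub : Icc x c ⊆ Icc a b := fun t ht => ⟨hxI.1.trans ht.1, ht.2.trans hcb⟩
    have hmem : ∀ t ∈ Icc x c, γ₁ t ∈ U ∧ γ₂ t ∈ U := by
      intro t ht
      apply he
      rw [Real.dist_eq, abs_of_nonneg (by linarith [ht.1])]
      linarith [ht.2]
    have hE : EqOn γ₁ γ₂ (Icc x c) := by
      refine ODE_solution_unique_of_mem_Icc_right (v := fun _ => X) (s := fun _ => U) (K := K)
        (fun t _ => hK) ((h₁.mono hsub).continuousOn) (fun t ht => ?_)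
        (fun t ht => (hmem t (Ico_subset_Icc_self ht)).1) ((h₂.mono hsub).continuousOn) (fun t ht => ?_)
        (fun t ht => (hmem t (Ico_subset_Icc_self ht)).2) hx
      · exact (h₁ t (hsub (Ico_subset_Icc_self ht))).2.hasDerivWithinAt
      · exact (h₂ t (hsub (Ico_subset_Icc_self ht))).2.hasDerivWithinAt
    refine mem_of_superset (Icc_mem_nhdsGT hxc) ?_
    exact hE)
  exact key

/-- F2: uniqueness of integral curves on intervals. -/
theorem sol_unique {X : E → E} {Ω : Set E} (_hΩ : IsOpen Ω)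
    (hX : ∀ x ∈ Ω, ContDiffAt ℝ 1 X x) {γ₁ γ₂ : ℝ → E} {I : Set ℝ} (hI : I.OrdConnected)
    (h₁ : Sol X Ω γ₁ I) (h₂ : Sol X Ω γ₂ I) {t₀ : ℝ} (ht₀ : t₀ ∈ I) (h : γ₁ t₀ = γ₂ t₀) :
    EqOn γ₁ γ₂ I := by
  intro t ht
  rcases le_total t₀ t with hle | hle
  · have hsub : Icc t₀ t ⊆ I := hI.out ht₀ ht
    exact FQ_forward hX (h₁.mono hsub) (h₂.mono hsub) h ⟨hle, le_rfl⟩
  · have hsub : Icc t t₀ ⊆ I := hI.out ht ht₀
    have hX' : ∀ x ∈ Ω, ContDiffAt ℝ 1 (fun x => -X x) x := fun x hx => (hX x hx).neg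
    have hs : ∀ γ : ℝ → E, Sol X Ω γ I → Sol (fun x => -X x) Ω (fun t => γ (-t)) (Icc (-t₀) (-t)) := by
      intro γ hγ
      refine (FQ_reverse hγ).mono ?_
      intro s hs
      exact hsub ⟨by linarith [hs.2], by linarith [hs.1]⟩
    have h3 := FQ_forward hX' (hs γ₁ h₁) (hs γ₂ h₂) (by simpa using h)
      (show -t ∈ Icc (-t₀) (-t) from ⟨by linarith, le_rfl⟩)
    simpa using h3

end Pool.Agent.helper25.B2
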