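import Mathlib
import Pool.Agent.helper25.B2.Sol

/-! # MP_b2b189_gt (S13780), b2:FU: uniform existence time on compact sets -/

set_option autoImplicit false

namespace Pool.Agent.helper25.B2

open Set Filter Topology

variable {E : Type*} [NormedAddCommGroup E] [NormedSpace ℝ E]

/-- one-sided confinement. -/
theorem FU_confine {Y : E → E} {x₀ : E} {ρ M : ℝ} (hM : 0 ≤ M)
    (hY : ∀ x ∈ Metric.closedBall x₀ ρ, ‖Y x‖ ≤ M) {α : ℝ → E} {T : ℝ}
    (hα : ∀ t ∈ Icc 0 T, HasDerivAt α (Y (α t)) t) (h0 : ‖α 0 - x₀‖ ≤ ρ / 2)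
    (hT' : (M + 1) * T ≤ ρ / 2) : ∀ t ∈ Icc 0 T, ‖α t - x₀‖ ≤ ρ := by
  intro t ht
  have h1 := image_norm_le_of_norm_deriv_right_lt_deriv_boundary (f := fun t => α t - x₀)
    (f' := fun t => Y (α t)) (a := 0) (b := T) (B := fun t => ρ / 2 + (M + 1) * t) (B' := fun _ => M + 1)
    (fun t ht => ((hα t ht).sub_const x₀).continuousAt.continuousWithinAt)
    (fun t ht => ((hα t (Ico_subset_Icc_self ht)).sub_const x₀).hasDerivWithinAt)
    (by simpa using h0)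
    (fun t => by
      have := ((hasDerivAt_id t).const_mul (M + 1)).const_add (ρ / 2)
      simpa using this)
    (fun t ht he => by
      have h2 : ‖α t - x₀‖ ≤ ρ := by
        rw [he]
        have : (M + 1) * t ≤ (M + 1) * T := mul_le_mul_of_nonneg_left ht.2.le (by linarith)
        linarith
      have h3 := hY (α t) (by rw [Metric.mem_closedBall, dist_eq_norm]; exact h2)
      linarith) ht
  have h2 : (M + 1) * t ≤ (M + 1) * T := mul_le_mul_of_nonneg_left ht.2 (by linarith)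
  have h3 : ‖α t - x₀‖ ≤ ρ / 2 + (M + 1) * t := h1
  linarith

/-- local version. -/
theorem FU_local [CompleteSpace E] {X : E → E} {Ω : Set E} (hΩ : IsOpen Ω) {x₀ : E} (hx₀ : x₀ ∈ Ω)
    (hX : ContDiffAt ℝ 1 X x₀) :
    ∃ r > 0, ∃ δ > 0, ∀ y ∈ Metric.closedBall x₀ r, ∃ γ : ℝ → E, γ 0 = y ∧ Sol X Ω γ (Ioo (-δ) δ) := by
  obtain ⟨r₀, hr₀, ε, hε, H⟩ := hX.exists_forall_mem_closedBall_exists_eq_forall_mem_Ioo_hasDerivAt 0
  -- a ball in `Ω` where `X` is bounded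
  have e1 : ∀ᶠ x in 𝓝 x₀, x ∈ Ω ∧ ‖X x‖ ≤ ‖X x₀‖ + 1 := by
    refine (hΩ.eventually_mem hx₀).and ?_
    have h2 : ∀ᶠ x in 𝓝 x₀, ‖X x‖ < ‖X x₀‖ + 1 :=
      hX.continuousAt.norm.eventually_lt_const (by linarith)
    exact h2.mono fun x hx => hx.le
  obtain ⟨ρ', hρ', hb⟩ := Metric.eventually_nhds_iff.1 e1
  set ρ := ρ' / 2 with hρdef
  have hρ : 0 < ρ := by positivity
  set M := ‖X x₀‖ + 1 with hM
  have hM0 : 0 ≤ M := by positivity
  have hball : ∀ x ∈ Metric.closedBall x₀ ρ, x ∈ Ω ∧ ‖X x‖ ≤ M := by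
    intro x hx
    apply hb
    rw [Metric.mem_closedBall] at hx
    linarith
  set δ := min (ε / 2) (ρ / (2 * (M + 1))) with hδ
  have hδ0 : 0 < δ := lt_min (by positivity) (by positivity)
  have hδ1 : δ ≤ ε / 2 := min_le_left _ _
  have hδ2 : (M + 1) * δ ≤ ρ / 2 := by
    have : δ ≤ ρ / (2 * (M + 1)) := min_le_right _ _
    calc (M + 1) * δ ≤ (M + 1) * (ρ / (2 * (M + 1))) := mul_le_mul_of_nonneg_left this (by linarith)
      _ = ρ / 2 := by field_simp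
  refine ⟨min r₀ (ρ / 2), lt_min hr₀ (by positivity), δ, hδ0, fun y hy => ?_⟩
  rw [Metric.mem_closedBall, dist_eq_norm] at hy
  obtain ⟨α, hα0, hα⟩ := H y (by
    rw [Metric.mem_closedBall, dist_eq_norm]
    exact hy.trans (min_le_left _ _))
  rw [zero_sub, zero_add] at hα
  refine ⟨α, hα0, ?_⟩
  have hy' : ‖α 0 - x₀‖ ≤ ρ / 2 := by
    rw [hα0]
    exact hy.trans (min_le_right _ _)
  have hpos : ∀ t ∈ Icc 0 δ, ‖α t - x₀‖ ≤ ρ :=
    FU_confine hM0 (fun x hx => (hball x hx).2)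
      (fun t ht => hα t ⟨by linarith [ht.1], by linarith [ht.2]⟩) hy' hδ2
  have hneg : ∀ t ∈ Icc 0 δ, ‖α (-t) - x₀‖ ≤ ρ := by
    refine FU_confine (Y := fun x => -X x) (α := fun t => α (-t)) hM0
      (fun x hx => by rw [norm_neg]; exact (hball x hx).2) (fun t ht => ?_) (by simpa using hy') hδ2
    have h1 := (hα (-t) ⟨by linarith [ht.2], by linarith [ht.1]⟩).scomp t (hasDerivAt_neg t)
    rw [neg_smul, one_smul] at h1
    exact h1
  intro t ht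
  have hnorm : ‖α t - x₀‖ ≤ ρ := by
    rcases le_total 0 t with h | h
    · exact hpos t ⟨h, ht.2.le⟩
    · have := hneg (-t) ⟨by linarith, by linarith [ht.1]⟩
      simpa using this
  refine ⟨(hball _ (by rw [Metric.mem_closedBall, dist_eq_norm]; exact hnorm)).1,
    hα t ⟨by linarith [ht.1], by linarith [ht.2]⟩⟩

/-- F1a, uniform in a neighbourhood of a compact set. -/
theorem exists_sol_unif_ball [CompleteSpace E] {X : E → E} {Ω K : Set E} (hΩ : IsOpen Ω)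
    (hX : ∀ x ∈ Ω, ContDiffAt ℝ 1 X x) (hK : IsCompact K) (hKΩ : K ⊆ Ω) :
    ∃ r > 0, ∃ δ > 0, ∀ x ∈ K, ∀ y ∈ Metric.closedBall x r,
      ∃ γ : ℝ → E, γ 0 = y ∧ Sol X Ω γ (Ioo (-δ) δ) := by
  refine hK.induction_on (p := fun S => ∃ r > 0, ∃ δ > 0, ∀ x ∈ S, ∀ y ∈ Metric.closedBall x r,
      ∃ γ : ℝ → E, γ 0 = y ∧ Sol X Ω γ (Ioo (-δ) δ)) ?_ ?_ ?_ ?_
  · exact ⟨1, one_pos, 1, one_pos, fun x hx => absurd hx (notMem_empty x)⟩
  · rintro s t hst ⟨r, hr, δ, hδ, h⟩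
    exact ⟨r, hr, δ, hδ, fun x hx => h x (hst hx)⟩
  · rintro s t ⟨r, hr, δ, hδ, h⟩ ⟨r', hr', δ', hδ', h'⟩
    refine ⟨min r r', lt_min hr hr', min δ δ', lt_min hδ hδ', ?_⟩
    rintro x (hx | hx) y hy
    · obtain ⟨γ, h1, h2⟩ := h x hx y (Metric.closedBall_subset_closedBall (min_le_left _ _) hy)
      refine ⟨γ, h1, h2.mono (Ioo_subset_Ioo (neg_le_neg (min_le_left _ _)) (min_le_left _ _))⟩
    · obtain ⟨γ, h1, h2⟩ := h' x hx y (Metric.closedBall_subset_closedBall (min_le_right _ _) hy)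
      refine ⟨γ, h1, h2.mono (Ioo_subset_Ioo (neg_le_neg (min_le_right _ _)) (min_le_right _ _))⟩
  · intro x hx
    obtain ⟨r, hr, δ, hδ, h⟩ := FU_local hΩ (hKΩ hx) (hX x (hKΩ hx))
    refine ⟨Metric.closedBall x (r / 2), mem_nhdsWithin_of_mem_nhds (Metric.closedBall_mem_nhds x (by positivity)),
      r / 2, by positivity, δ, hδ, ?_⟩
    intro z hz y hy
    apply h
    rw [Metric.mem_closedBall] at hz hy ⊢
    linarith [dist_triangle y z x]

/-- F1a: uniform existence time on compact sets. -/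
theorem exists_sol_unif [CompleteSpace E] {X : E → E} {Ω K : Set E} (hΩ : IsOpen Ω)
    (hX : ∀ x ∈ Ω, ContDiffAt ℝ 1 X x) (hK : IsCompact K) (hKΩ : K ⊆ Ω) :
    ∃ δ > 0, ∀ x ∈ K, ∃ γ : ℝ → E, γ 0 = x ∧ Sol X Ω γ (Ioo (-δ) δ) := by
  obtain ⟨r, hr, δ, hδ, h⟩ := exists_sol_unif_ball hΩ hX hK hKΩ
  exact ⟨δ, hδ, fun x hx => h x hx x (Metric.mem_closedBall_self hr.le)⟩

end Pool.Agent.helper25.B2
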