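import Mathlib
import Pool.Agent.helper58.B2.FU
import Pool.Agent.helper58.B2.FQ

/-! # MP_b2b189_gt (S13780), b2:FG: global existence of integral curves -/

set_option autoImplicit false

namespace Pool.Agent.helper25.B2

open Set Filter Topology

variable {E : Type*} [NormedAddCommGroup E] [NormedSpace ℝ E]

theorem FG_congr {X : E → E} {Ω : Set E} {γ η : ℝ → E} {t : ℝ} (h : γ t ∈ Ω ∧ HasDerivAt γ (X (γ t)) t)
    (he : η =ᶠ[𝓝 t] γ) : η t ∈ Ω ∧ HasDerivAt η (X (η t)) t := by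
  rw [he.eq_of_nhds]
  exact ⟨h.1, h.2.congr_of_eventuallyEq he⟩

/-- gluing two solutions. -/
theorem FG_glue {X : E → E} {Ω : Set E} (hΩ : IsOpen Ω) (hX : ∀ x ∈ Ω, ContDiffAt ℝ 1 X x)
    {γ η : ℝ → E} {a b c e t₁ : ℝ} (hγ : Sol X Ω γ (Ioo a b)) (hη : Sol X Ω η (Ioo c e))
    (h1 : t₁ ∈ Ioo a b) (h2 : t₁ ∈ Ioo c e) (h : γ t₁ = η t₁) :
    Sol X Ω (fun t => if t < t₁ then γ t else η t) (Ioo a e) := by
  have hU : EqOn γ η (Ioo (max a c) (min b e)) := by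
    refine sol_unique hΩ hX ordConnected_Ioo (hγ.mono (Ioo_subset_Ioo (le_max_left _ _) (min_le_left _ _)))
      (hη.mono (Ioo_subset_Ioo (le_max_right _ _) (min_le_right _ _))) (t₀ := t₁)
      ⟨max_lt h1.1 h2.1, lt_min h1.2 h2.2⟩ h
  intro t ht
  rcases lt_trichotomy t t₁ with hlt | rfl | hgt
  · refine FG_congr (η := fun t => if t < t₁ then γ t else η t) (hγ t ⟨ht.1, hlt.trans h1.2⟩) ?_
    filter_upwards [gt_mem_nhds hlt] with s hs
    rw [if_pos hs]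
  · refine FG_congr (η := fun s => if s < t then γ s else η s) (hγ t h1) ?_
    filter_upwards [Ioo_mem_nhds (max_lt h1.1 h2.1) (lt_min h1.2 h2.2)] with s hs
    by_cases hst : s < t
    · rw [if_pos hst]
    · rw [if_neg hst, hU hs]
  · refine FG_congr (η := fun t => if t < t₁ then γ t else η t) (hη t ⟨h2.1.trans hgt, ht.2⟩) ?_
    filter_upwards [lt_mem_nhds hgt] with s hs
    rw [if_neg (not_lt.2 (le_of_lt hs))]

/-- translate of a solution. -/
theorem FG_shift {X : E → E} {Ω : Set E} {γ : ℝ → E} {δ : ℝ} (h : Sol X Ω γ (Ioo (-δ) δ)) (c : ℝ) :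
    Sol X Ω (fun t => γ (t - c)) (Ioo (c - δ) (c + δ)) := by
  have h1 := h.shift (-c)
  refine Sol.mono (I := {t | t + -c ∈ Ioo (-δ) δ}) h1 ?_
  intro t ht
  exact ⟨by linarith [ht.1], by linarith [ht.2]⟩

/-- F1b: global existence when all local solutions starting at `x₀` stay in compact sets. -/
theorem exists_sol_global [CompleteSpace E] {X : E → E} {Ω : Set E} (hΩ : IsOpen Ω)
    (hX : ∀ x ∈ Ω, ContDiffAt ℝ 1 X x) {x₀ : E} (hx₀ : x₀ ∈ Ω)
    (hK : ∀ S > 0, ∃ K : Set E, IsCompact K ∧ K ⊆ Ω ∧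
      ∀ s ≤ S, 0 < s → ∀ γ : ℝ → E, γ 0 = x₀ → Sol X Ω γ (Ioo (-s) s) → ∀ t ∈ Ioo (-s) s, γ t ∈ K) :
    ∃ γ : ℝ → E, γ 0 = x₀ ∧ Sol X Ω γ univ := by
  -- solutions on every interval
  have hP : ∀ S > 0, ∃ γ : ℝ → E, γ 0 = x₀ ∧ Sol X Ω γ (Ioo (-S) S) := by
    intro S hS
    obtain ⟨K, hKc, hKΩ, hKS⟩ := hK S hS
    obtain ⟨δ, hδ, hu⟩ := exists_sol_unif hΩ hX hKc hKΩ
    obtain ⟨δ₀, hδ₀, hu₀⟩ := exists_sol_unif hΩ hX (isCompact_singleton (x := x₀)) (by simpa using hx₀)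
    obtain ⟨γ₀, hγ₀, hγ₀'⟩ := hu₀ x₀ rfl
    -- extension step
    have hext : ∀ s, 0 < s → s ≤ S → (∃ γ : ℝ → E, γ 0 = x₀ ∧ Sol X Ω γ (Ioo (-s) s)) →
        ∃ γ : ℝ → E, γ 0 = x₀ ∧ Sol X Ω γ (Ioo (-(s + δ / 2)) (s + δ / 2)) := by
      rintro s hs hsS ⟨γ, hγ0, hγ⟩
      set τ := min (δ / 2) (s / 2) with hτ
      have hτ0 : 0 < τ := lt_min (by positivity) (by positivity)
      have hτ1 : τ ≤ δ / 2 := min_le_left _ _
      have hτ2 : τ ≤ s / 2 := min_le_right _ _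
      have hmem : ∀ t ∈ Ioo (-s) s, γ t ∈ K := hKS s hsS hs γ hγ0 hγ
      obtain ⟨η₁, hη₁0, hη₁⟩ := hu (γ (s - τ)) (hmem _ ⟨by linarith, by linarith⟩)
      obtain ⟨η₂, hη₂0, hη₂⟩ := hu (γ (-(s - τ))) (hmem _ ⟨by linarith, by linarith⟩)
      have g1 := FG_glue hΩ hX (t₁ := s - τ) hγ (FG_shift hη₁ (s - τ)) ⟨by linarith, by linarith⟩
        ⟨by linarith, by linarith⟩ (by rw [sub_self, hη₁0])
      have g2 := FG_glue hΩ hX (t₁ := -(s - τ)) (FG_shift hη₂ (-(s - τ))) g1 ⟨by linarith, by linarith⟩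
        ⟨by linarith, by linarith⟩ (by
          rw [sub_self, hη₂0, if_pos (by linarith)])
      refine ⟨_, ?_, g2.mono (Ioo_subset_Ioo (by linarith) (by linarith))⟩
      rw [if_neg (by linarith), if_pos (by linarith)]
      exact hγ0
    -- iterate
    have hit : ∀ n : ℕ, δ₀ + n * (δ / 2) ≤ S →
        ∃ γ : ℝ → E, γ 0 = x₀ ∧ Sol X Ω γ (Ioo (-(δ₀ + n * (δ / 2))) (δ₀ + n * (δ / 2))) := by
      intro n
      induction n with
      | zero =>
        intro _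
        refine ⟨γ₀, hγ₀, ?_⟩
        simpa using hγ₀'
      | succ n ih =>
        intro hn
        push_cast at hn ⊢
        have h1 : δ₀ + n * (δ / 2) ≤ S := by nlinarith
        have h2 := hext _ (by positivity) h1 (ih h1)
        have h3 : δ₀ + n * (δ / 2) + δ / 2 = δ₀ + (n + 1) * (δ / 2) := by ring
        rw [h3] at h2
        exact h2
    by_cases hS0 : δ₀ ≤ S
    · set n := ⌊(S - δ₀) / (δ / 2)⌋₊ with hn
      have h1 : (n : ℝ) ≤ (S - δ₀) / (δ / 2) := Nat.floor_le (div_nonneg (by linarith) (by positivity))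
      have h2 : (S - δ₀) / (δ / 2) < n + 1 := Nat.lt_floor_add_one _
      rw [le_div_iff₀ (by positivity)] at h1
      rw [div_lt_iff₀ (by positivity)] at h2
      have h3 := hit n (by linarith)
      obtain ⟨γ, h4, h5⟩ := hext _ (by positivity) (by linarith) h3
      exact ⟨γ, h4, h5.mono (Ioo_subset_Ioo (by linarith) (by linarith))⟩
    · push Not at hS0
      exact ⟨γ₀, hγ₀, hγ₀'.mono (Ioo_subset_Ioo (by linarith) (by linarith))⟩
  choose! Γ hΓ0 hΓ using fun n : ℕ => hP ((n : ℝ) + 1) (by positivity)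
  -- consistency
  have hcons : ∀ m n : ℕ, m ≤ n → EqOn (Γ m) (Γ n) (Ioo (-((m : ℝ) + 1)) ((m : ℝ) + 1)) := by
    intro m n hmn
    have hmn' : (m : ℝ) ≤ n := by exact_mod_cast hmn
    have hm0 : (0 : ℝ) ≤ m := Nat.cast_nonneg m
    refine sol_unique hΩ hX ordConnected_Ioo (hΓ m) ((hΓ n).mono (Ioo_subset_Ioo (by linarith) (by linarith)))
      (t₀ := 0) ⟨by linarith, by linarith⟩ ?_
    rw [hΓ0, hΓ0]
  refine ⟨fun t => Γ ⌈|t|⌉₊ t, ?_, ?_⟩
  · exact hΓ0 _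
  · intro t _
    set N := ⌈|t|⌉₊ + 1 with hN
    have hNt : |t| + 1 ≤ N := by
      rw [hN]
      push_cast
      linarith [Nat.le_ceil |t|]
    have htN := abs_le.1 (show |t| ≤ (N : ℝ) - 1 by linarith)
    refine FG_congr (η := fun t => Γ ⌈|t|⌉₊ t) (hΓ N t ⟨by linarith [htN.1], by linarith [htN.2]⟩) ?_
    filter_upwards [Ioo_mem_nhds (show t - 1 < t by linarith) (show t < t + 1 by linarith)] with s hs
    have hs1 : |s| ≤ N := by
      rw [abs_le]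
      exact ⟨by linarith [htN.1, hs.1], by linarith [htN.2, hs.2]⟩
    have hs2 : ⌈|s|⌉₊ ≤ N := Nat.ceil_le.2 hs1
    refine hcons _ _ hs2 ?_
    have hs3 := Nat.le_ceil |s|
    have hs4 := abs_le.1 hs3
    exact ⟨by linarith [hs4.1], by linarith [hs4.2]⟩

end Pool.Agent.helper25.B2
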