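import Pool.Agent.helper68.B2.Defs
import Pool.Agent.helper58.B2.FU

/-! # MP_b2b189_gt (S13780), b2:W5: vector fields defined up to sign, continuation of integral curves -/

set_option autoImplicit false

namespace Pool.Agent.helper68.B2

open scoped ContDiff Topology Matrix
open Matrix Set Filter

/-- a smooth vector field defined up to sign on the open set `V` (`Rt x w`: `w` is one of the two
values at `x`) -/
structure SField (E : Type*) [NormedAddCommGroup E] [NormedSpace ℝ E] where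
  V : Set E
  isOpen : IsOpen V
  Rt : E → E → Prop
  sec : ∀ x₀ ∈ V, ∃ U ∈ 𝓝 x₀, U ⊆ V ∧ ∃ T : E → E, ContDiffOn ℝ 1 T U ∧
    ∀ x ∈ U, T x ≠ 0 ∧ ∀ w, Rt x w ↔ (w = T x ∨ w = -T x)

/-- integral curves (with their velocity `w`) on the set `I` of times -/
def SField.IsCurve {E : Type*} [NormedAddCommGroup E] [NormedSpace ℝ E] (F : SField E)
    (γ w : ℝ → E) (I : Set ℝ) : Prop :=
  ContinuousOn w I ∧ ∀ t ∈ I, γ t ∈ F.V ∧ F.Rt (γ t) (w t) ∧ HasDerivWithinAt γ (w t) I t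

section W5
variable {E : Type*} [NormedAddCommGroup E] [NormedSpace ℝ E]

theorem W5_mono {F : SField E} {γ w : ℝ → E} {I J : Set ℝ} (h : F.IsCurve γ w I) (hJ : J ⊆ I) :
    F.IsCurve γ w J :=
  ⟨h.1.mono hJ, fun t ht => ⟨(h.2 t (hJ ht)).1, (h.2 t (hJ ht)).2.1, (h.2 t (hJ ht)).2.2.mono hJ⟩⟩

theorem W5_neg {F : SField E} {x w : E} (hx : x ∈ F.V) (h : F.Rt x w) : F.Rt x (-w) := by
  obtain ⟨U, hU, -, T, -, hT⟩ := F.sec x hx
  have hxU : x ∈ U := mem_of_mem_nhds hU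
  rw [(hT x hxU).2]
  rcases ((hT x hxU).2 w).1 h with h1 | h1
  · right; rw [h1]
  · left; rw [h1, neg_neg]

/-- a section through a given root. -/
theorem W5_sec (F : SField E) {x₀ w₀ : E} (hx : x₀ ∈ F.V) (hw : F.Rt x₀ w₀) :
    ∃ U ∈ 𝓝 x₀, U ⊆ F.V ∧ ∃ T : E → E, T x₀ = w₀ ∧ ContDiffOn ℝ 1 T U ∧
      ∀ x ∈ U, T x ≠ 0 ∧ ∀ w, F.Rt x w ↔ (w = T x ∨ w = -T x) := by
  obtain ⟨U, hU, hUV, T, hT1, hT⟩ := F.sec x₀ hx
  have hxU : x₀ ∈ U := mem_of_mem_nhds hU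
  rcases ((hT x₀ hxU).2 w₀).1 hw with h1 | h1
  · exact ⟨U, hU, hUV, T, h1.symm, hT1, hT⟩
  · refine ⟨U, hU, hUV, fun x => -T x, h1.symm, hT1.neg, fun x hxx => ⟨neg_ne_zero.2 (hT x hxx).1, fun w => ?_⟩⟩
    rw [(hT x hxx).2, neg_neg]
    exact or_comm

/-- the velocity follows the section. -/
theorem W5_track {F : SField E} {γ w : ℝ → E} {I : Set ℝ} (h : F.IsCurve γ w I) {t : ℝ} (ht : t ∈ I)
    {U : Set E} (hU : U ∈ 𝓝 (γ t)) {T : E → E} (hT0 : T (γ t) = w t) (hT1 : ContDiffOn ℝ 1 T U)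
    (hT : ∀ x ∈ U, T x ≠ 0 ∧ ∀ w, F.Rt x w ↔ (w = T x ∨ w = -T x)) :
    ∀ᶠ s in 𝓝[I] t, γ s ∈ U ∧ w s = T (γ s) := by
  have hγ : ContinuousWithinAt γ I t := (h.2 t ht).2.2.continuousWithinAt
  have h1 : ∀ᶠ s in 𝓝[I] t, γ s ∈ U := hγ hU
  have hTc : ContinuousAt T (γ t) := (hT1.continuousOn).continuousAt hU
  have h2 : ContinuousWithinAt (fun s => w s + T (γ s)) I t :=
    (h.1 t ht).add (hTc.comp_continuousWithinAt hγ)
  have h3 : w t + T (γ t) ≠ 0 := by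
    rw [← hT0]
    intro h0
    have h4 : (2 : ℝ) • T (γ t) = 0 := by rw [two_smul]; exact h0
    exact (hT _ (mem_of_mem_nhds hU)).1 ((smul_eq_zero.1 h4).resolve_left two_ne_zero)
  have h4 : ∀ᶠ s in 𝓝[I] t, w s + T (γ s) ≠ 0 := h2.eventually_ne h3
  filter_upwards [h1, h4, self_mem_nhdsWithin] with s hs hs' hsI
  refine ⟨hs, ?_⟩
  rcases ((hT _ hs).2 _).1 (h.2 s hsI).2.1 with h5 | h5
  · exact h5
  · exfalso
    apply hs'
    rw [h5, neg_add_cancel]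

theorem W5_forward (F : SField E) {a b : ℝ} {γ w γ' w' : ℝ → E}
    (h : F.IsCurve γ w (Icc a b)) (h' : F.IsCurve γ' w' (Icc a b))
    (h0 : γ a = γ' a) (hw0 : w a = w' a) : ∀ t ∈ Icc a b, γ t = γ' t ∧ w t = w' t := by
  have hγ : ContinuousOn γ (Icc a b) := fun t ht => (h.2 t ht).2.2.continuousWithinAt
  have hγ' : ContinuousOn γ' (Icc a b) := fun t ht => (h'.2 t ht).2.2.continuousWithinAt
  have hcl : IsClosed ({t | γ t = γ' t ∧ w t = w' t} ∩ Icc a b) := by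
    have hc : ContinuousOn (fun t => (γ t - γ' t, w t - w' t)) (Icc a b) :=
      (hγ.sub hγ').prodMk (h.1.sub h'.1)
    have := hc.preimage_isClosed_of_isClosed isClosed_Icc (isClosed_singleton (x := ((0 : E), (0 : E))))
    convert this using 1
    ext t
    simp only [mem_inter_iff, mem_ofPred_eq, mem_preimage, mem_singleton_iff, Prod.mk.injEq, sub_eq_zero]
    tauto
  have key := hcl.Icc_subset_of_forall_mem_nhdsWithin ⟨h0, hw0⟩ (by
    rintro x ⟨⟨hx1, hx2⟩, hxI⟩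
    have hxI' : x ∈ Icc a b := Ico_subset_Icc_self hxI
    obtain ⟨U, hU, hUV, T, hT0, hT1, hT⟩ := W5_sec F (h.2 x hxI').1 (h.2 x hxI').2.1
    obtain ⟨K, U', hU', hK⟩ := (hT1.contDiffAt hU).exists_lipschitzOnWith
    have e1 := W5_track h hxI' (Filter.inter_mem hU hU') hT0 (hT1.mono inter_subset_left)
      (fun y hy => hT y hy.1)
    have e2 := W5_track h' hxI' (U := U ∩ U') (T := T) (by rw [← hx1]; exact Filter.inter_mem hU hU')
      (by rw [← hx1, ← hx2]; exact hT0) (hT1.mono inter_subset_left) (fun y hy => hT y hy.1)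
    have hnh : 𝓝[>] x ≤ 𝓝[Icc a b] x := by
      refine nhdsWithin_le_of_mem ?_
      exact mem_of_superset (Ioc_mem_nhdsGT hxI.2) (fun y hy => ⟨hxI.1.trans hy.1.le, hy.2⟩)
    have e3 := (e1.and e2).filter_mono hnh
    obtain ⟨c, hc, hcs⟩ := (mem_nhdsGT_iff_exists_Ioc_subset).1 e3
    set c' := min c b with hc'
    have hxc : x < c' := lt_min hc hxI.2
    have hsub : Icc x c' ⊆ Icc a b := fun t ht => ⟨hxI.1.trans ht.1, ht.2.trans (min_le_right _ _)⟩
    have hmem : ∀ t ∈ Icc x c', (γ t ∈ U ∩ U' ∧ w t = T (γ t)) ∧ (γ' t ∈ U ∩ U' ∧ w' t = T (γ' t)) := by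
      intro t ht
      rcases ht.1.eq_or_lt with rfl | hlt
      · refine ⟨⟨mem_of_mem_nhds (Filter.inter_mem hU hU'), hT0.symm⟩, ?_⟩
        rw [← hx1, ← hx2]
        exact ⟨mem_of_mem_nhds (Filter.inter_mem hU hU'), hT0.symm⟩
      · exact hcs ⟨hlt, ht.2.trans (min_le_left _ _)⟩
    have hder : ∀ (g v : ℝ → E), F.IsCurve g v (Icc a b) → (∀ t ∈ Icc x c', v t = T (g t)) →
        ∀ t ∈ Ico x c', HasDerivWithinAt g (T (g t)) (Ici t) t := by
      intro g v hg hv t ht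
      have ht' := hsub (Ico_subset_Icc_self ht)
      have h1 := (hg.2 t ht').2.2
      rw [hv t (Ico_subset_Icc_self ht)] at h1
      refine h1.mono_of_mem_nhdsWithin ?_
      exact mem_of_superset (Ico_mem_nhdsGE (ht.2.trans_le (min_le_right _ _)))
        (fun y hy => ⟨ht'.1.trans hy.1, hy.2.le⟩)
    have hE : EqOn γ γ' (Icc x c') := by
      refine ODE_solution_unique_of_mem_Icc_right (v := fun _ => T) (s := fun _ => U') (K := K)
        (fun t _ => hK) (hγ.mono hsub) (hder γ w h fun t ht => (hmem t ht).1.2)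
        (fun t ht => (hmem t (Ico_subset_Icc_self ht)).1.1.2) (hγ'.mono hsub)
        (hder γ' w' h' fun t ht => (hmem t ht).2.2)
        (fun t ht => (hmem t (Ico_subset_Icc_self ht)).2.1.2) hx1
    refine mem_of_superset (Icc_mem_nhdsGT hxc) ?_
    intro t ht
    refine ⟨hE ht, ?_⟩
    rw [(hmem t ht).1.2, (hmem t ht).2.2, hE ht])
  exact key

/-- time reversal. -/
theorem W5_reverse {F : SField E} {γ w : ℝ → E} {I : Set ℝ} (h : F.IsCurve γ w I) :
    F.IsCurve (fun t => γ (-t)) (fun t => -w (-t)) {t | -t ∈ I} := by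
  refine ⟨(h.1.comp continuousOn_neg (fun t ht => ht)).neg, fun t ht => ?_⟩
  obtain ⟨h1, h2, h3⟩ := h.2 (-t) ht
  refine ⟨h1, W5_neg h1 h2, ?_⟩
  have h4 := HasDerivWithinAt.scomp t h3 (hasDerivAt_neg t).hasDerivWithinAt
    (show MapsTo (fun t : ℝ => -t) {t | -t ∈ I} I from fun t ht => ht)
  rw [neg_smul, one_smul] at h4
  exact h4

theorem W5_unique_gen (F : SField E) (a b : ℝ) (ha : a ≤ 0) (hb : 0 ≤ b) (γ w γ' w' : ℝ → E)
    (h : F.IsCurve γ w (Icc a b)) (h' : F.IsCurve γ' w' (Icc a b))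
    (h0 : γ 0 = γ' 0) (hw0 : w 0 = w' 0) : ∀ t ∈ Icc a b, γ t = γ' t ∧ w t = w' t := by
  intro t ht
  rcases le_total 0 t with h1 | h1
  · exact W5_forward F (W5_mono h (Icc_subset_Icc ha le_rfl)) (W5_mono h' (Icc_subset_Icc ha le_rfl)) h0 hw0
      t ⟨h1, ht.2⟩
  · have hs : ∀ g v : ℝ → E, F.IsCurve g v (Icc a b) →
        F.IsCurve (fun t => g (-t)) (fun t => -v (-t)) (Icc 0 (-a)) := by
      intro g v hg
      refine W5_mono (W5_reverse hg) ?_
      intro s hs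
      exact ⟨by linarith [hs.2], by linarith [hs.1]⟩
    have h2 := W5_forward F (hs γ w h) (hs γ' w' h') (by simpa using h0) (by simpa using hw0)
      (-t) ⟨by linarith, by linarith [ht.1]⟩
    simpa using h2

theorem W5_unique {E : Type*} [NormedAddCommGroup E] [NormedSpace ℝ E] [FiniteDimensional ℝ E]
    (F : SField E) (a b : ℝ) (ha : a ≤ 0) (hb : 0 ≤ b) (γ w γ' w' : ℝ → E)
    (h : F.IsCurve γ w (Icc a b)) (h' : F.IsCurve γ' w' (Icc a b))
    (h0 : γ 0 = γ' 0) (hw0 : w 0 = w' 0) : ∀ t ∈ Icc a b, γ t = γ' t ∧ w t = w' t :=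
  W5_unique_gen F a b ha hb γ w γ' w' h h' h0 hw0

/-- a solution of the section is a curve. -/
theorem W5_of_sol {F : SField E} {U : Set E} (hUV : U ⊆ F.V) {T : E → E} (hT1 : ContDiffOn ℝ 1 T U)
    (hT : ∀ x ∈ U, T x ≠ 0 ∧ ∀ w, F.Rt x w ↔ (w = T x ∨ w = -T x)) {γ : ℝ → E} {I : Set ℝ}
    (h : Pool.Agent.helper25.B2.Sol T (interior U) γ I) : F.IsCurve γ (fun t => T (γ t)) I := by
  refine ⟨?_, fun t ht => ?_⟩
  · refine hT1.continuousOn.comp h.continuousOn fun t ht => interior_subset (h t ht).1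
  · have hU := interior_subset (h t ht).1
    exact ⟨hUV hU, ((hT _ hU).2 _).2 (Or.inl rfl), (h t ht).2.hasDerivWithinAt⟩

/-- uniform existence time on compact sets. -/
theorem W5_unif [CompleteSpace E] (F : SField E) {C : Set E} (hC : IsCompact C) (hCV : C ⊆ F.V) :
    ∃ δ > 0, ∀ x ∈ C, ∀ w, F.Rt x w → ∃ γ v : ℝ → E, γ 0 = x ∧ v 0 = w ∧ F.IsCurve γ v (Icc (-δ) δ) := by
  refine hC.induction_on (p := fun S => ∃ δ > 0, ∀ x ∈ S, ∀ w, F.Rt x w →
      ∃ γ v : ℝ → E, γ 0 = x ∧ v 0 = w ∧ F.IsCurve γ v (Icc (-δ) δ)) ?_ ?_ ?_ ?_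
  · exact ⟨1, one_pos, fun x hx => absurd hx (notMem_empty x)⟩
  · rintro s t hst ⟨δ, hδ, h⟩
    exact ⟨δ, hδ, fun x hx => h x (hst hx)⟩
  · rintro s t ⟨δ, hδ, h⟩ ⟨δ', hδ', h'⟩
    refine ⟨min δ δ', lt_min hδ hδ', ?_⟩
    rintro x (hx | hx) w hw
    · obtain ⟨γ, v, h1, h2, h3⟩ := h x hx w hw
      exact ⟨γ, v, h1, h2, W5_mono h3 (Icc_subset_Icc (neg_le_neg (min_le_left _ _)) (min_le_left _ _))⟩
    · obtain ⟨γ, v, h1, h2, h3⟩ := h' x hx w hw
      exact ⟨γ, v, h1, h2, W5_mono h3 (Icc_subset_Icc (neg_le_neg (min_le_right _ _)) (min_le_right _ _))⟩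
  · intro x hx
    obtain ⟨U, hU, hUV, T, hT1, hT⟩ := F.sec x (hCV hx)
    have hxU : x ∈ interior U := mem_interior_iff_mem_nhds.2 hU
    obtain ⟨r, hr, δ, hδ, h⟩ := Pool.Agent.helper25.B2.FU_local isOpen_interior hxU (hT1.contDiffAt hU)
    refine ⟨Metric.closedBall x r, mem_nhdsWithin_of_mem_nhds (Metric.closedBall_mem_nhds x hr),
      δ / 2, by positivity, fun y hy w hw => ?_⟩
    obtain ⟨γ, h1, h2⟩ := h y hy
    have hsub : Icc (-(δ / 2)) (δ / 2) ⊆ Ioo (-δ) δ := fun t ht => ⟨by linarith [ht.1], by linarith [ht.2]⟩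
    have h3 := W5_of_sol hUV hT1 hT (h2.mono hsub)
    have hyU : y ∈ U := by
      have := (h2 0 ⟨by linarith, hδ⟩).1
      rw [h1] at this
      exact interior_subset this
    rcases ((hT y hyU).2 w).1 hw with h4 | h4
    · exact ⟨γ, fun t => T (γ t), h1, by show T (γ 0) = w; rw [h1, h4], h3⟩
    · refine ⟨fun t => γ (-t), fun t => -T (γ (-t)), by simpa using h1, by simp [h1, h4], ?_⟩
      refine W5_mono (W5_reverse h3) ?_
      intro t ht
      exact ⟨by linarith [ht.2], by linarith [ht.1]⟩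

theorem W5_shift {F : SField E} {γ w : ℝ → E} {I : Set ℝ} (h : F.IsCurve γ w I) (c : ℝ) :
    F.IsCurve (fun t => γ (t - c)) (fun t => w (t - c)) {t | t - c ∈ I} := by
  have hc : ContinuousOn (fun t : ℝ => t - c) {t | t - c ∈ I} := by fun_prop
  refine ⟨h.1.comp hc (fun t ht => ht), fun t ht => ?_⟩
  obtain ⟨h1, h2, h3⟩ := h.2 (t - c) ht
  refine ⟨h1, h2, ?_⟩
  have h4 := HasDerivWithinAt.scomp t h3 ((hasDerivAt_id t).sub_const c).hasDerivWithinAt
    (show MapsTo (fun t : ℝ => t - c) {t | t - c ∈ I} I from fun t ht => ht)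
  rw [one_smul] at h4
  exact h4

/-- gluing at the right end. -/
theorem W5_glue {F : SField E} {γ w η v : ℝ → E} {a b c : ℝ} (hab : a ≤ b) (hbc : b ≤ c)
    (h : F.IsCurve γ w (Icc a b)) (h' : F.IsCurve η v (Icc b c)) (h0 : γ b = η b) (hw0 : w b = v b) :
    F.IsCurve (fun t => if t ≤ b then γ t else η t) (fun t => if t ≤ b then w t else v t) (Icc a c) := by
  have hU : Icc a c = Icc a b ∪ Icc b c := (Icc_union_Icc_eq_Icc hab hbc).symm
  have e1 : ∀ t ∈ Icc b c, (if t ≤ b then γ t else η t) = η t := by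
    intro t ht
    by_cases h : t ≤ b
    · have : t = b := le_antisymm h ht.1
      rw [if_pos h, this, h0]
    · rw [if_neg h]
  have e2 : ∀ t ∈ Icc b c, (if t ≤ b then w t else v t) = v t := by
    intro t ht
    by_cases h : t ≤ b
    · have : t = b := le_antisymm h ht.1
      rw [if_pos h, this, hw0]
    · rw [if_neg h]
  have e3 : ∀ t ∈ Icc a b, (if t ≤ b then γ t else η t) = γ t := fun t ht => if_pos ht.2
  have e4 : ∀ t ∈ Icc a b, (if t ≤ b then w t else v t) = w t := fun t ht => if_pos ht.2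
  refine ⟨?_, fun t ht => ?_⟩
  · rw [hU]
    refine ContinuousOn.union_of_isClosed ?_ ?_ isClosed_Icc isClosed_Icc
    · exact h.1.congr e4
    · exact h'.1.congr e2
  · refine ⟨?_, ?_, ?_⟩
    · by_cases hb : t ≤ b
      · show (if t ≤ b then γ t else η t) ∈ F.V
        rw [if_pos hb]
        exact (h.2 t ⟨ht.1, hb⟩).1
      · show (if t ≤ b then γ t else η t) ∈ F.V
        rw [if_neg hb]
        exact (h'.2 t ⟨(not_le.1 hb).le, ht.2⟩).1
    · by_cases hb : t ≤ b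
      · show F.Rt (if t ≤ b then γ t else η t) (if t ≤ b then w t else v t)
        rw [if_pos hb, if_pos hb]
        exact (h.2 t ⟨ht.1, hb⟩).2.1
      · show F.Rt (if t ≤ b then γ t else η t) (if t ≤ b then w t else v t)
        rw [if_neg hb, if_neg hb]
        exact (h'.2 t ⟨(not_le.1 hb).le, ht.2⟩).2.1
    · show HasDerivWithinAt (fun t => if t ≤ b then γ t else η t) (if t ≤ b then w t else v t) (Icc a c) t
      rw [hU]
      have f1 : t ∈ Icc a b → HasDerivWithinAt (fun t => if t ≤ b then γ t else η t)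
          (if t ≤ b then w t else v t) (Icc a b) t := by
        intro htl
        rw [e4 t htl]
        exact (h.2 t htl).2.2.congr e3 (e3 t htl)
      have f2 : t ∈ Icc b c → HasDerivWithinAt (fun t => if t ≤ b then γ t else η t)
          (if t ≤ b then w t else v t) (Icc b c) t := by
        intro htr
        rw [e2 t htr]
        exact (h'.2 t htr).2.2.congr e1 (e1 t htr)
      rcases lt_trichotomy t b with hlt | heq | hgt
      · have htl : t ∈ Icc a b := ⟨ht.1, hlt.le⟩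
        refine (f1 htl).union ?_
        have : t ∉ closure (Icc b c) := by
          rw [isClosed_Icc.closure_eq]
          intro hh
          exact absurd hh.1 (not_le.2 hlt)
        exact HasFDerivWithinAt.of_notMem_closure this
      · exact (f1 ⟨ht.1, heq.le⟩).union (f2 ⟨heq.ge, ht.2⟩)
      · have htr : t ∈ Icc b c := ⟨hgt.le, ht.2⟩
        refine HasDerivWithinAt.union ?_ (f2 htr)
        have : t ∉ closure (Icc a b) := by
          rw [isClosed_Icc.closure_eq]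
          intro hh
          exact absurd hh.2 (not_le.2 hgt)
        exact HasFDerivWithinAt.of_notMem_closure this

/-- extension to the right. -/
theorem W5_extend {F : SField E} {γ w : ℝ → E} {a b δ : ℝ} (ha : a ≤ 0) (hb : 0 ≤ b) (hδ : 0 < δ)
    (h : F.IsCurve γ w (Icc a b)) (hex : ∃ η v : ℝ → E, η 0 = γ b ∧ v 0 = w b ∧ F.IsCurve η v (Icc (-δ) δ)) :
    ∃ γ' w' : ℝ → E, F.IsCurve γ' w' (Icc a (b + δ)) ∧ γ' 0 = γ 0 ∧ w' 0 = w 0 := by
  obtain ⟨η, v, h1, h2, h3⟩ := hex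
  have h4 : F.IsCurve (fun t => η (t - b)) (fun t => v (t - b)) (Icc b (b + δ)) := by
    refine W5_mono (W5_shift h3 b) ?_
    intro t ht
    exact ⟨by linarith [ht.1], by linarith [ht.2]⟩
  refine ⟨_, _, W5_glue (ha.trans hb) (by linarith) h h4 (by simp [h1]) (by simp [h2]), ?_, ?_⟩
  · show (if (0 : ℝ) ≤ b then γ 0 else _) = γ 0
    rw [if_pos hb]
  · show (if (0 : ℝ) ≤ b then w 0 else _) = w 0
    rw [if_pos hb]

theorem W5_symm_extend {F : SField E} {γ w : ℝ → E} {s δ : ℝ} (hs : 0 ≤ s) (hδ : 0 < δ)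
    (h : F.IsCurve γ w (Icc (-s) s))
    (hex : ∀ t ∈ Icc (-s) s, ∀ u, F.Rt (γ t) u →
      ∃ η v : ℝ → E, η 0 = γ t ∧ v 0 = u ∧ F.IsCurve η v (Icc (-δ) δ)) :
    ∃ γ' w' : ℝ → E, F.IsCurve γ' w' (Icc (-(s + δ)) (s + δ)) ∧ γ' 0 = γ 0 ∧ w' 0 = w 0 := by
  have hms : -s ≤ 0 := by linarith
  -- extend to the left by reversal
  have h1 : F.IsCurve (fun t => γ (-t)) (fun t => -w (-t)) (Icc (-s) s) := by
    refine W5_mono (W5_reverse h) ?_
    intro t ht
    exact ⟨by linarith [ht.2], by linarith [ht.1]⟩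
  have hmem : (-s : ℝ) ∈ Icc (-s) s := ⟨le_rfl, by linarith⟩
  obtain ⟨γ₁, w₁, h2, h3, h4⟩ := W5_extend hms hs hδ h1
    (hex (-s) hmem (-w (-s)) (W5_neg (h.2 _ hmem).1 (h.2 _ hmem).2.1))
  have h5 : F.IsCurve (fun t => γ₁ (-t)) (fun t => -w₁ (-t)) (Icc (-(s + δ)) s) := by
    refine W5_mono (W5_reverse h2) ?_
    intro t ht
    exact ⟨by linarith [ht.2], by linarith [ht.1]⟩
  -- on `[-s, s]` it coincides with the old curve
  have h6 := W5_unique_gen F (-s) s hms hs (fun t => γ₁ (-t)) (fun t => -w₁ (-t)) γ w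
    (W5_mono h5 (Icc_subset_Icc (by linarith) le_rfl)) h (by simp [h3]) (by simp [h4])
  have hmem' : (s : ℝ) ∈ Icc (-s) s := ⟨by linarith, le_rfl⟩
  obtain ⟨γ₂, w₂, h7, h8, h9⟩ := W5_extend (a := -(s + δ)) (by linarith) hs hδ h5 (by
    obtain ⟨e1, e2⟩ := h6 s hmem'
    have e1' : γ₁ (-s) = γ s := e1
    have e2' : -w₁ (-s) = w s := e2
    show ∃ η v : ℝ → E, η 0 = γ₁ (-s) ∧ v 0 = -w₁ (-s) ∧ F.IsCurve η v (Icc (-δ) δ)
    rw [e1', e2']
    exact hex s hmem' (w s) (h.2 s hmem').2.1)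
  refine ⟨γ₂, w₂, h7, ?_, ?_⟩
  · rw [h8]; simp [h3]
  · rw [h9]; simp [h4]

theorem W5_complete {E : Type*} [NormedAddCommGroup E] [NormedSpace ℝ E] [FiniteDimensional ℝ E]
    (F : SField E) (x₀ w₀ : E) (hx : x₀ ∈ F.V) (hw : F.Rt x₀ w₀)
    (hK : ∀ T : ℝ, 0 < T → ∃ C : Set E, IsCompact C ∧ C ⊆ F.V ∧ ∀ γ w : ℝ → E, ∀ a b : ℝ,
      -T ≤ a → a ≤ 0 → 0 ≤ b → b ≤ T → F.IsCurve γ w (Icc a b) → γ 0 = x₀ → w 0 = w₀ →
      ∀ t ∈ Icc a b, γ t ∈ C) :
    ∃ γ w : ℝ → E, F.IsCurve γ w univ ∧ γ 0 = x₀ ∧ w 0 = w₀ := by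
  have hcomp : CompleteSpace E := FiniteDimensional.complete ℝ E
  have hP : ∀ S > 0, ∃ γ w : ℝ → E, F.IsCurve γ w (Icc (-S) S) ∧ γ 0 = x₀ ∧ w 0 = w₀ := by
    intro S hS
    obtain ⟨C, hC, hCV, hCS⟩ := hK S hS
    obtain ⟨δ, hδ, hu⟩ := W5_unif F hC hCV
    have hit : ∀ n : ℕ, (n : ℝ) * δ ≤ S + δ →
        ∃ γ w : ℝ → E, F.IsCurve γ w (Icc (-(n * δ)) (n * δ)) ∧ γ 0 = x₀ ∧ w 0 = w₀ := by
      intro n
      induction n with
      | zero =>
        intro _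
        refine ⟨fun _ => x₀, fun _ => w₀, ⟨continuousOn_const, fun t ht => ⟨hx, hw, ?_⟩⟩, rfl, rfl⟩
        have : Icc (-(((0 : ℕ) : ℝ) * δ)) (((0 : ℕ) : ℝ) * δ) = {t} := by
          have ht' : t = 0 := by
            have h1 := ht.1
            have h2 := ht.2
            simp at h1 h2
            linarith
          rw [ht']
          simp
        rw [this]
        exact HasFDerivWithinAt.singleton
      | succ n ih =>
        intro hn
        push_cast at hn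
        have hnS : (n : ℝ) * δ ≤ S := by linarith
        obtain ⟨γ, w, h1, h2, h3⟩ := ih (by linarith)
        have hn0 : 0 ≤ (n : ℝ) * δ := by positivity
        obtain ⟨γ', w', h4, h5, h6⟩ := W5_symm_extend hn0 hδ h1 (fun t ht u hu' =>
          hu (γ t) (hCS γ w (-(n * δ)) (n * δ) (by linarith) (by linarith) hn0 hnS h1 h2 h3 t ht) u hu')
        refine ⟨γ', w', ?_, h5.trans h2, h6.trans h3⟩
        have : ((n + 1 : ℕ) : ℝ) * δ = n * δ + δ := by push_cast; ring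
        rw [this]
        exact h4
    set n := ⌊(S + δ) / δ⌋₊ with hn
    have h1 : (n : ℝ) ≤ (S + δ) / δ := Nat.floor_le (by positivity)
    have h2 : (S + δ) / δ < n + 1 := Nat.lt_floor_add_one _
    rw [le_div_iff₀ hδ] at h1
    rw [div_lt_iff₀ hδ] at h2
    obtain ⟨γ, w, h3, h4, h5⟩ := hit n h1
    exact ⟨γ, w, W5_mono h3 (Icc_subset_Icc (by nlinarith) (by nlinarith)), h4, h5⟩
  choose Γ W hΓ hΓ0 hW0 using fun n : ℕ => hP ((n : ℝ) + 1) (by positivity)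
  have hcons : ∀ m n : ℕ, m ≤ n → ∀ t ∈ Icc (-((m : ℝ) + 1)) ((m : ℝ) + 1), Γ m t = Γ n t ∧ W m t = W n t := by
    intro m n hmn
    have hmn' : (m : ℝ) ≤ n := by exact_mod_cast hmn
    have hm0 : (0 : ℝ) ≤ m := Nat.cast_nonneg m
    exact W5_unique_gen F _ _ (by linarith) (by linarith) _ _ _ _ (hΓ m)
      (W5_mono (hΓ n) (Icc_subset_Icc (by linarith) (by linarith))) (by rw [hΓ0, hΓ0]) (by rw [hW0, hW0])
  -- local description
  have hloc : ∀ t : ℝ, ∃ N : ℕ, Icc (-((N : ℝ) + 1)) ((N : ℝ) + 1) ∈ 𝓝 t ∧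
      ∀ᶠ s in 𝓝 t, Γ ⌈|s|⌉₊ s = Γ N s ∧ W ⌈|s|⌉₊ s = W N s := by
    intro t
    refine ⟨⌈|t|⌉₊ + 1, ?_, ?_⟩
    · have h1 := Nat.le_ceil |t|
      have h2 := abs_le.1 h1
      push_cast
      exact Icc_mem_nhds (by linarith [h2.1]) (by linarith [h2.2])
    · filter_upwards [Ioo_mem_nhds (show t - 1 < t by linarith) (show t < t + 1 by linarith)] with s hs
      have h1 := Nat.le_ceil |t|
      have h2 := abs_le.1 h1
      have hs1 : |s| ≤ ((⌈|t|⌉₊ + 1 : ℕ) : ℝ) := by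
        push_cast
        rw [abs_le]
        exact ⟨by linarith [h2.1, hs.1], by linarith [h2.2, hs.2]⟩
      have hs2 : ⌈|s|⌉₊ ≤ ⌈|t|⌉₊ + 1 := Nat.ceil_le.2 hs1
      refine hcons _ _ hs2 s ?_
      have hs3 := Nat.le_ceil |s|
      have hs4 := abs_le.1 hs3
      exact ⟨by linarith [hs4.1], by linarith [hs4.2]⟩
  refine ⟨fun t => Γ ⌈|t|⌉₊ t, fun t => W ⌈|t|⌉₊ t, ⟨?_, fun t _ => ?_⟩, hΓ0 _, hW0 _⟩
  · intro t _
    obtain ⟨N, hN, he⟩ := hloc t
    have h1 : ContinuousAt (W N) t := ((hΓ N).1).continuousAt hN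
    have h2 : (fun t => W ⌈|t|⌉₊ t) =ᶠ[𝓝 t] W N := he.mono fun s hs => hs.2
    exact (h1.congr h2.symm).continuousWithinAt
  · obtain ⟨N, hN, he⟩ := hloc t
    have hNt : t ∈ Icc (-((N : ℝ) + 1)) ((N : ℝ) + 1) := mem_of_mem_nhds hN
    obtain ⟨h1, h2, h3⟩ := (hΓ N).2 t hNt
    have e := he.self_of_nhds
    refine ⟨?_, ?_, ?_⟩
    · show Γ ⌈|t|⌉₊ t ∈ F.V
      rw [e.1]
      exact h1
    · show F.Rt (Γ ⌈|t|⌉₊ t) (W ⌈|t|⌉₊ t)
      rw [e.1, e.2]
      exact h2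
    · show HasDerivWithinAt (fun t => Γ ⌈|t|⌉₊ t) (W ⌈|t|⌉₊ t) univ t
      rw [e.2]
      have h4 : HasDerivAt (Γ N) (W N t) t := h3.hasDerivAt hN
      have h5 : (fun t => Γ ⌈|t|⌉₊ t) =ᶠ[𝓝 t] Γ N := he.mono fun s hs => hs.1
      exact (h4.congr_of_eventuallyEq h5).hasDerivWithinAt

end W5

end Pool.Agent.helper68.B2
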