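import Pool.Agent.helper68.B2.Defs

/-! # MP_b2b189_gt (S13780), b2:W3: holomorphic maximum principle in a real chart -/

set_option autoImplicit false

namespace Pool.Agent.helper68.B2

open scoped ContDiff Topology Matrix
open Matrix Set Filter

section W3
variable {E : Type*} [NormedAddCommGroup E] [NormedSpace ℝ E]

/-- local constancy along a slice on which `dζ` is invertible. -/
theorem W3_local (x₁ : E) (U : Set E) (hU : U ∈ 𝓝 x₁) (ζ z κ : E → ℂ) (hζ : ContDiffAt ℝ 1 ζ x₁)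
    (hζd : ∀ x ∈ U, DifferentiableAt ℝ ζ x)
    (hz : ∀ x ∈ U, HasFDerivAt z (κ x • fderiv ℝ ζ x) x) (R : ℂ →L[ℝ] E) (L : ℂ ≃L[ℝ] ℂ)
    (hL : (fderiv ℝ ζ x₁).comp R = (L : ℂ →L[ℝ] ℂ)) (hmax : ∀ x ∈ U, (z x).im ≤ (z x₁).im) :
    ∀ᶠ c in 𝓝 (0 : ℂ), z (x₁ + R c) = z x₁ := by
  have hσ0 : x₁ + R 0 = x₁ := by simp
  have hσc : ContinuousAt (fun c : ℂ => x₁ + R c) 0 := by fun_prop
  have hσd : ∀ c : ℂ, HasFDerivAt (fun c : ℂ => x₁ + R c) R c := fun c => R.hasFDerivAt.const_add x₁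
  have hUσ : ∀ᶠ c in 𝓝 (0 : ℂ), x₁ + R c ∈ U := hσc.eventually_mem (by rw [hσ0]; exact hU)
  set h : ℂ → ℂ := fun c => ζ (x₁ + R c) with hh
  have hC : ContDiffAt ℝ 1 h 0 := by
    have h1 : ContDiffAt ℝ 1 (fun c : ℂ => x₁ + R c) 0 := contDiffAt_const.add R.contDiff.contDiffAt
    have h2 : ContDiffAt ℝ 1 ζ ((fun c : ℂ => x₁ + R c) 0) := by
      show ContDiffAt ℝ 1 ζ (x₁ + R 0)
      rw [hσ0]; exact hζ
    exact h2.comp (0 : ℂ) h1
  have hD : HasFDerivAt h (L : ℂ →L[ℝ] ℂ) 0 := by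
    rw [← hL]
    have h2 : HasFDerivAt ζ (fderiv ℝ ζ x₁) ((fun c : ℂ => x₁ + R c) 0) := by
      show HasFDerivAt ζ (fderiv ℝ ζ x₁) (x₁ + R 0)
      rw [hσ0]
      exact (hζd x₁ (mem_of_mem_nhds hU)).hasFDerivAt
    exact h2.comp (0 : ℂ) (hσd 0)
  have h1ne : (1 : WithTop ℕ∞) ≠ 0 := one_ne_zero
  set k : ℂ → ℂ := hC.localInverse hD h1ne with hk
  have hk0 : k (h 0) = 0 := hC.localInverse_apply_image hD h1ne
  have hkC : ContDiffAt ℝ 1 k (h 0) := hC.to_localInverse hD h1ne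
  have hstrict := hC.hasStrictFDerivAt' hD h1ne
  have hright : ∀ᶠ w in 𝓝 (h 0), h (k w) = w := hstrict.eventually_right_inverse
  have hleft : ∀ᶠ c in 𝓝 (0 : ℂ), k (h c) = c := hstrict.eventually_left_inverse
  have hkc : ContinuousAt k (h 0) := hkC.continuousAt
  have hkU : ∀ᶠ w in 𝓝 (h 0), x₁ + R (k w) ∈ U := by
    refine hkc.eventually (p := fun c => x₁ + R c ∈ U) ?_
    rw [hk0]
    exact hUσ
  have hkd : ∀ᶠ w in 𝓝 (h 0), DifferentiableAt ℝ k w := by
    filter_upwards [hkC.eventually (by simp)] with w hw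
    exact hw.differentiableAt h1ne
  set G : ℂ → ℂ := fun w => z (x₁ + R (k w)) with hG
  -- `G` is holomorphic
  have hGd : ∀ᶠ w in 𝓝 (h 0), DifferentiableAt ℂ G w := by
    filter_upwards [hright.eventually_nhds, hkU, hkd] with w hw1 hw2 hw3
    have hx := hw2
    have e1 : HasFDerivAt (fun w => x₁ + R (k w)) (R.comp (fderiv ℝ k w)) w :=
      (hσd (k w)).comp w hw3.hasFDerivAt
    have e2 : HasFDerivAt G ((κ (x₁ + R (k w)) • fderiv ℝ ζ (x₁ + R (k w))).comp (R.comp (fderiv ℝ k w))) w :=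
      (hz _ hx).comp w e1
    have e3 : HasFDerivAt (fun w => h (k w)) ((fderiv ℝ ζ (x₁ + R (k w))).comp (R.comp (fderiv ℝ k w))) w :=
      (hζd _ hx).hasFDerivAt.comp w e1
    have e4 : HasFDerivAt (fun w => h (k w)) (ContinuousLinearMap.id ℝ ℂ) w :=
      (hasFDerivAt_id w).congr_of_eventuallyEq hw1
    have e5 := e3.unique e4
    have e6 : (κ (x₁ + R (k w)) • fderiv ℝ ζ (x₁ + R (k w))).comp (R.comp (fderiv ℝ k w)) =
        (κ (x₁ + R (k w)) • ContinuousLinearMap.id ℂ ℂ).restrictScalars ℝ := by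
      ext v
      have e7 := congrArg (fun f : ℂ →L[ℝ] ℂ => f v) e5
      simp only [ContinuousLinearMap.comp_apply, ContinuousLinearMap.id_apply] at e7
      simp only [ContinuousLinearMap.comp_apply, ContinuousLinearMap.smul_apply,
        ContinuousLinearMap.coe_restrictScalars', ContinuousLinearMap.id_apply]
      rw [e7]
    rw [e6] at e2
    exact (hasFDerivAt_of_restrictScalars ℝ e2 rfl).differentiableAt
  have hGa : AnalyticAt ℂ G (h 0) := by
    obtain ⟨s, hs, hso⟩ := Filter.eventually_iff_exists_mem.1 hGd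
    exact DifferentiableOn.analyticAt (s := s) (fun w hw => (hso w hw).differentiableWithinAt) hs
  have hG0 : G (h 0) = z x₁ := by
    show z (x₁ + R (k (h 0))) = z x₁
    rw [hk0, hσ0]
  have hGmax : ∀ᶠ w in 𝓝 (h 0), (G w).im ≤ (G (h 0)).im := by
    filter_upwards [hkU] with w hw
    rw [hG0]
    exact hmax _ hw
  have hGc : ∀ᶠ w in 𝓝 (h 0), G w = G (h 0) := by
    rcases hGa.eventually_constant_or_nhds_le_map_nhds with h1 | h1
    · exact h1
    · exfalso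
      have h2 : {w : ℂ | w.im ≤ (G (h 0)).im} ∈ 𝓝 (G (h 0)) := h1 hGmax
      obtain ⟨ε, hε, hb⟩ := Metric.mem_nhds_iff.1 h2
      have h3 : G (h 0) + (ε / 2 : ℝ) * Complex.I ∈ Metric.ball (G (h 0)) ε := by
        rw [Metric.mem_ball, dist_eq_norm, add_sub_cancel_left, norm_mul, Complex.norm_I, mul_one,
          Complex.norm_real, Real.norm_eq_abs, abs_of_pos (by positivity)]
        linarith
      have h4 := hb h3
      simp at h4
      linarith
  have hhc : ContinuousAt h 0 := hC.continuousAt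
  filter_upwards [hhc.eventually hGc, hleft] with c hc1 hc2
  have : G (h c) = z (x₁ + R c) := by
    show z (x₁ + R (k (h c))) = z (x₁ + R c)
    rw [hc2]
  rw [← this, hc1, hG0]

/-- move along a segment of a slice. -/
theorem W3_move (p : E) (r : ℝ) (ζ z κ : E → ℂ)
    (hζ : ∀ x ∈ Metric.ball p r, ContDiffAt ℝ 1 ζ x)
    (hz : ∀ x ∈ Metric.ball p r, HasFDerivAt z (κ x • fderiv ℝ ζ x) x)
    (hmax : ∀ x ∈ Metric.ball p r, (z x).im ≤ (z p).im) (R : ℂ →L[ℝ] E)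
    (hL : ∀ x ∈ Metric.ball p r, ∃ L : ℂ ≃L[ℝ] ℂ, (fderiv ℝ ζ x).comp R = (L : ℂ →L[ℝ] ℂ))
    (x : E) (hx : x ∈ Metric.ball p r) (hxz : z x = z p) (c : ℂ) (hxc : x + R c ∈ Metric.ball p r) :
    z (x + R c) = z p := by
  have hseg : ∀ t ∈ Icc (0 : ℝ) 1, x + t • R c ∈ Metric.ball p r := by
    intro t ht
    have h1 := (convex_ball p r).add_smul_mem hx hxc ht
    exact h1
  have hcont : ContinuousOn (fun t : ℝ => z (x + t • R c)) (Icc 0 1) := by
    intro t ht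
    have h1 : ContinuousAt z (x + t • R c) := (hz _ (hseg t ht)).continuousAt
    have h2 : ContinuousAt (fun t : ℝ => x + t • R c) t := by fun_prop
    exact (ContinuousAt.comp (f := fun t : ℝ => x + t • R c) h1 h2).continuousWithinAt
  have hcl : IsClosed ({t : ℝ | z (x + t • R c) = z p} ∩ Icc 0 1) := by
    have := hcont.preimage_isClosed_of_isClosed isClosed_Icc (isClosed_singleton (x := z p))
    rwa [inter_comm] at this
  have key := hcl.Icc_subset_of_forall_mem_nhdsWithin (by simpa using hxz) (by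
    rintro t ⟨ht, htI⟩
    have htI' : t ∈ Icc (0 : ℝ) 1 := Ico_subset_Icc_self htI
    have hxt := hseg t htI'
    have ht' : z (x + t • R c) = z p := ht
    obtain ⟨L, hL'⟩ := hL _ hxt
    have h1 := W3_local (x + t • R c) (Metric.ball p r) (Metric.isOpen_ball.mem_nhds hxt) ζ z κ (hζ _ hxt)
      (fun y hy => (hζ y hy).differentiableAt one_ne_zero) hz R L hL' (fun y hy => by
        rw [ht']; exact hmax y hy)
    have h2 : Tendsto (fun s : ℝ => ((s - t : ℝ) : ℂ) * c) (𝓝 t) (𝓝 0) := by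
      have h3 : ContinuousAt (fun s : ℝ => ((s - t : ℝ) : ℂ) * c) t := by fun_prop
      have h4 := h3.tendsto
      simpa using h4
    have h5 := h2.eventually h1
    refine nhdsWithin_le_nhds ?_
    filter_upwards [h5] with s hs
    have e1 : R (((s - t : ℝ) : ℂ) * c) = (s - t) • R c := by
      rw [← Complex.real_smul, map_smul]
    rw [e1] at hs
    have e2 : x + t • R c + (s - t) • R c = x + s • R c := by
      rw [sub_smul]; abel
    rw [e2, ht'] at hs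
    exact hs)
  have h1 := key (show (1 : ℝ) ∈ Icc (0 : ℝ) 1 from ⟨zero_le_one, le_rfl⟩)
  simpa using h1

end W3

theorem W3_holo {E : Type*} [NormedAddCommGroup E] [NormedSpace ℝ E] [FiniteDimensional ℝ E]
    (p : E) (U : Set E) (hU : U ∈ 𝓝 p) (ζ z κ : E → ℂ)
    (hζ : ContDiffOn ℝ ∞ ζ U)
    (hz : ∀ x ∈ U, HasFDerivAt z (κ x • fderiv ℝ ζ x) x)
    (hsurj : Function.Surjective (fderiv ℝ ζ p))
    (hmax : ∀ x ∈ U, (z x).im ≤ (z p).im) : ∀ᶠ x in 𝓝 p, z x = z p := by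
  -- a right inverse
  obtain ⟨R₀, hR₀⟩ : ∃ R₀ : ℂ →L[ℝ] E, ∀ c, fderiv ℝ ζ p (R₀ c) = c := by
    obtain ⟨g, hg⟩ := (fderiv ℝ ζ p : E →ₗ[ℝ] ℂ).exists_rightInverse_of_surjective (LinearMap.range_eq_top.2 hsurj)
    refine ⟨LinearMap.toContinuousLinearMap g, fun c => ?_⟩
    have := congrArg (fun f : ℂ →ₗ[ℝ] ℂ => f c) hg
    simpa using this
  set B := ‖R₀‖ + 1 with hB
  have hB0 : 0 < B := by positivity
  -- radius
  have hζp : ContDiffAt ℝ ∞ ζ p := hζ.contDiffAt hU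
  have hcd : ContinuousAt (fderiv ℝ ζ) p := hζp.continuousAt_fderiv (by simp)
  have hev : ∀ᶠ x in 𝓝 p, x ∈ interior U ∧ ‖fderiv ℝ ζ x - fderiv ℝ ζ p‖ < 1 / B := by
    have hI : ∀ᶠ x in 𝓝 p, x ∈ interior U := interior_mem_nhds.2 hU
    refine hI.and ?_
    have h1 : ContinuousAt (fun x => ‖fderiv ℝ ζ x - fderiv ℝ ζ p‖) p := (hcd.sub continuousAt_const).norm
    have h2 : ‖fderiv ℝ ζ p - fderiv ℝ ζ p‖ < 1 / B := by
      rw [sub_self, norm_zero]; positivity
    exact h1.eventually_lt_const h2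
  obtain ⟨r, hr, hball⟩ := Metric.eventually_nhds_iff_ball.1 hev
  have hUball : ∀ x ∈ Metric.ball p r, x ∈ U := fun x hx => interior_subset (hball x hx).1
  have hζb : ∀ x ∈ Metric.ball p r, ContDiffAt ℝ 1 ζ x := fun x hx =>
    (hζ.contDiffAt (mem_interior_iff_mem_nhds.1 (hball x hx).1)).of_le (by simp)
  -- invertibility along slices
  have hLR : ∀ k : E, fderiv ℝ ζ p k = 0 → ‖k‖ ≤ 1 → ∀ x ∈ Metric.ball p r, ∃ L : ℂ ≃L[ℝ] ℂ,
      (fderiv ℝ ζ x).comp (R₀ + (Complex.reCLM.smulRight k)) = (L : ℂ →L[ℝ] ℂ) := by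
    intro k hk hk1 x hx
    set R := R₀ + (Complex.reCLM.smulRight k) with hR
    have hRn : ‖R‖ ≤ B := by
      refine (norm_add_le _ _).trans (add_le_add le_rfl ?_)
      rw [ContinuousLinearMap.norm_smulRight_apply, Complex.reCLM_norm, one_mul]
      exact hk1
    have hpR : (fderiv ℝ ζ p).comp R = ContinuousLinearMap.id ℝ ℂ := by
      ext c
      simp [hR, hR₀, hk]
    have hlt : ‖ContinuousLinearMap.id ℝ ℂ - (fderiv ℝ ζ x).comp R‖ < 1 := by
      rw [← hpR, ← ContinuousLinearMap.sub_comp]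
      refine (ContinuousLinearMap.opNorm_comp_le _ _).trans_lt ?_
      rw [norm_sub_rev]
      calc ‖fderiv ℝ ζ x - fderiv ℝ ζ p‖ * ‖R‖ ≤ ‖fderiv ℝ ζ x - fderiv ℝ ζ p‖ * B :=
            mul_le_mul_of_nonneg_left hRn (norm_nonneg _)
        _ < 1 / B * B := mul_lt_mul_of_pos_right (hball x hx).2 hB0
        _ = 1 := by field_simp
    -- injective hence invertible
    have hinj : Function.Injective ((fderiv ℝ ζ x).comp R) := by
      rw [injective_iff_map_eq_zero]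
      intro c hc
      by_contra hne
      have h1 : ‖(ContinuousLinearMap.id ℝ ℂ - (fderiv ℝ ζ x).comp R) c‖ ≤
          ‖ContinuousLinearMap.id ℝ ℂ - (fderiv ℝ ζ x).comp R‖ * ‖c‖ := ContinuousLinearMap.le_opNorm _ _
      rw [ContinuousLinearMap.sub_apply, hc, sub_zero, ContinuousLinearMap.id_apply] at h1
      have h2 : 0 < ‖c‖ := norm_pos_iff.2 hne
      nlinarith
    refine ⟨(LinearEquiv.ofInjectiveEndo ((fderiv ℝ ζ x).comp R : ℂ →ₗ[ℝ] ℂ) hinj).toContinuousLinearEquiv, ?_⟩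
    ext c
    rfl
  have hmove := fun (k : E) (hk : fderiv ℝ ζ p k = 0) (hk1 : ‖k‖ ≤ 1) =>
    W3_move p r ζ z κ hζb (fun x hx => hz x (hUball x hx)) (fun x hx => hmax x (hUball x hx))
      (R₀ + (Complex.reCLM.smulRight k)) (hLR k hk hk1)
  -- the final neighbourhood
  set D := ‖fderiv ℝ ζ p‖ with hD
  set ρ := r / (4 * (B * (B * D + 1) + B * D + 1)) with hρ
  have hρ0 : 0 < ρ := by positivity
  refine Metric.eventually_nhds_iff_ball.2 ⟨ρ, hρ0, fun y hy => ?_⟩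
  set v := y - p with hv
  have hvn : ‖v‖ < ρ := by
    rw [Metric.mem_ball, dist_eq_norm] at hy
    exact hy
  set c := fderiv ℝ ζ p v with hc
  set k' := v - R₀ c with hk'
  have hk'0 : fderiv ℝ ζ p k' = 0 := by
    rw [hk', map_sub, hR₀, hc, sub_self]
  have hcn : ‖c‖ ≤ D * ‖v‖ := ContinuousLinearMap.le_opNorm _ _
  have hR₀n : ‖R₀‖ ≤ B := by rw [hB]; linarith
  have hD0 : 0 ≤ D := norm_nonneg _
  have hv0 : 0 ≤ ‖v‖ := norm_nonneg _
  have hRc : ‖R₀ c‖ ≤ B * D * ‖v‖ := by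
    calc ‖R₀ c‖ ≤ ‖R₀‖ * ‖c‖ := ContinuousLinearMap.le_opNorm _ _
      _ ≤ B * (D * ‖v‖) := mul_le_mul hR₀n hcn (norm_nonneg _) hB0.le
      _ = B * D * ‖v‖ := by ring
  have hk'n : ‖k'‖ ≤ (B * D + 1) * ‖v‖ := by
    calc ‖k'‖ ≤ ‖v‖ + ‖R₀ c‖ := norm_sub_le _ _
      _ ≤ ‖v‖ + B * D * ‖v‖ := by linarith
      _ = (B * D + 1) * ‖v‖ := by ring
  have hρr : ρ * (4 * (B * (B * D + 1) + B * D + 1)) = r := by
    rw [hρ]; field_simp
  have hB1 : 1 ≤ B := by rw [hB]; linarith [norm_nonneg R₀]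
  have hBD : 0 ≤ B * D := by positivity
  have hvr : ‖v‖ * (4 * (B * (B * D + 1) + B * D + 1)) < r := by
    rw [← hρr]
    exact mul_lt_mul_of_pos_right hvn (by positivity)
  have hmem : ∀ u : E, ‖u‖ < r → p + u ∈ Metric.ball p r := by
    intro u hu
    rw [Metric.mem_ball, dist_eq_norm, add_sub_cancel_left]
    exact hu
  -- first move
  have m1 : z (p + R₀ c) = z p := by
    have h1 := hmove 0 (map_zero _) (by simp) p (Metric.mem_ball_self hr) rfl c
    have e : (R₀ + Complex.reCLM.smulRight (0 : E)) c = R₀ c := by simp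
    rw [e] at h1
    exact h1 (hmem _ (by nlinarith))
  by_cases hk'z : k' = 0
  · have : p + R₀ c = y := by
      have h1 : v = R₀ c := sub_eq_zero.1 hk'z
      rw [← h1, hv]; abel
    rw [← this]
    exact m1
  · have hk'pos : 0 < ‖k'‖ := norm_pos_iff.2 hk'z
    set k := ‖k'‖⁻¹ • k' with hk
    have hkz : fderiv ℝ ζ p k = 0 := by rw [hk, map_smul, hk'0, smul_zero]
    have hk1 : ‖k‖ ≤ 1 := by
      rw [hk, norm_smul, norm_inv, norm_norm, inv_mul_cancel₀ hk'pos.ne']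
    have hkk : ‖k'‖ • k = k' := by
      rw [hk, smul_smul, mul_inv_cancel₀ hk'pos.ne', one_smul]
    set τ : ℂ := ((‖k'‖ : ℝ) : ℂ) with hτ
    have hRτ : ‖R₀ τ‖ ≤ B * ‖k'‖ := by
      calc ‖R₀ τ‖ ≤ ‖R₀‖ * ‖τ‖ := ContinuousLinearMap.le_opNorm _ _
        _ ≤ B * ‖k'‖ := by
          rw [hτ, Complex.norm_real, norm_norm]
          exact mul_le_mul_of_nonneg_right hR₀n (norm_nonneg _)
    have hBk : B * ‖k'‖ ≤ B * ((B * D + 1) * ‖v‖) := mul_le_mul_of_nonneg_left hk'n hB0.le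
    have hBBD : 0 ≤ B * (B * D + 1) := by positivity
    have n1 : ‖R₀ c‖ + ‖R₀ τ‖ + ‖k'‖ < r := by
      have q1 : ‖R₀ c‖ + ‖R₀ τ‖ + ‖k'‖ ≤ (B * (B * D + 1) + B * D + (B * D + 1)) * ‖v‖ := by
        have : B * ((B * D + 1) * ‖v‖) = B * (B * D + 1) * ‖v‖ := by ring
        nlinarith
      have q2 : (B * (B * D + 1) + B * D + (B * D + 1)) * ‖v‖ ≤
          ‖v‖ * (4 * (B * (B * D + 1) + B * D + 1)) := by
        rw [mul_comm]
        refine mul_le_mul_of_nonneg_left ?_ hv0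
        linarith
      linarith
    have hx1 : p + R₀ c ∈ Metric.ball p r := hmem _ (by linarith [norm_nonneg (R₀ τ), norm_nonneg k'])
    have eR : (R₀ + Complex.reCLM.smulRight k) τ = R₀ τ + k' := by
      simp only [ContinuousLinearMap.add_apply, ContinuousLinearMap.smulRight_apply, Complex.reCLM_apply]
      rw [hτ, Complex.ofReal_re, hkk]
    have hx2 : p + R₀ c + (R₀ τ + k') ∈ Metric.ball p r := by
      rw [add_assoc]
      refine hmem _ (lt_of_le_of_lt ?_ n1)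
      calc ‖R₀ c + (R₀ τ + k')‖ ≤ ‖R₀ c‖ + ‖R₀ τ + k'‖ := norm_add_le _ _
        _ ≤ ‖R₀ c‖ + (‖R₀ τ‖ + ‖k'‖) := by gcongr; exact norm_add_le _ _
        _ = _ := by ring
    have m2 : z (p + R₀ c + (R₀ τ + k')) = z p := by
      have h1 := hmove k hkz hk1 (p + R₀ c) hx1 m1 τ
      rw [eR] at h1
      exact h1 hx2
    have e3 : p + R₀ c + (R₀ τ + k') + (R₀ + Complex.reCLM.smulRight (0 : E)) (-τ) = p + v := by
      have : (R₀ + Complex.reCLM.smulRight (0 : E)) (-τ) = - R₀ τ := by simp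
      rw [this, hk']; abel
    have m3 : z (p + v) = z p := by
      have h1 := hmove 0 (map_zero _) (by simp) (p + R₀ c + (R₀ τ + k')) hx2 m2 (-τ)
      rw [e3] at h1
      refine h1 (hmem _ (lt_of_le_of_lt ?_ n1))
      have : v = R₀ c + k' := by rw [hk']; abel
      calc ‖v‖ = ‖R₀ c + k'‖ := by rw [← this]
        _ ≤ ‖R₀ c‖ + ‖k'‖ := norm_add_le _ _
        _ ≤ _ := by linarith [norm_nonneg (R₀ τ)]
    have : p + v = y := by rw [hv]; abel
    rw [← this]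
    exact m3

end Pool.Agent.helper68.B2
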